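import Pool.Agent.Q150.BasicB

/-!
# A perfect cone spanned by `g` independent rank-one forms that is not basic
-/

namespace Pool.Agent.Results.MP_aa1cdf_co.NotBasic

open Q150.Basic

/-- For every `g ≥ 21` there are linearly independent `v_1, …, v_g ∈ ℤ^g` and a positive definite
form `Q` with `Min(Q) = {±v_1, …, ±v_g}` such that `p(v_1), …, p(v_g)` cannot be extended to a
`ℤ`-basis of `Sym²(ℤ^g)`. -/
theorem result : ∀ g : ℕ, 21 ≤ g → ∃ v : Fin g → Fin g → ℤ,
    LinearIndependent ℤ v ∧ GeneratesPerfectCone v ∧ ¬ ExtendsToBasis v :=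
  main

end Pool.Agent.Results.MP_aa1cdf_co.NotBasic
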